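import Pool.Agent.Q155.OrAnd.Ex

set_option autoImplicit false

/-! Characteristic functions of variables with range of length at most `3/4`. -/

namespace Q155.OrAnd

open Real

theorem sin_bound {t : ℝ} (ht : |t| ≤ 3 / 4) : t ^ 2 / 4 ≤ sin (π * t) ^ 2 := by
  have hpi := pi_pos
  rcases le_or_gt |t| (1 / 2) with h | h
  · have h1 : |π * t| ≤ π / 2 := by
      rw [abs_mul, abs_of_pos hpi]
      nlinarith
    have h2 := mul_abs_le_abs_sin h1
    rw [abs_mul, abs_of_pos hpi] at h2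
    have h3 : 2 / π * (π * |t|) = 2 * |t| := by field_simp
    rw [h3] at h2
    have h4 := pow_le_pow_left₀ (by positivity) h2 2
    rw [sq_abs, mul_pow, sq_abs] at h4
    nlinarith [sq_nonneg t]
  · have h1 : sin (π * t) ^ 2 = sin (π * (1 - |t|)) ^ 2 := by
      rw [mul_sub, mul_one, sin_pi_sub]
      rcases abs_cases t with ⟨h2, _⟩ | ⟨h2, _⟩
      · rw [h2]
      · rw [h2, mul_neg, sin_neg, neg_sq]
    have h2 : 2 / π * (π * (1 - |t|)) ≤ sin (π * (1 - |t|)) := by
      apply mul_le_sin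
      · apply mul_nonneg hpi.le
        linarith
      · nlinarith
    have h3 : 2 / π * (π * (1 - |t|)) = 2 * (1 - |t|) := by field_simp
    rw [h3] at h2
    have h4 : (1 / 2 : ℝ) ≤ sin (π * (1 - |t|)) := by linarith
    rw [h1]
    have h5 : t ^ 2 ≤ (3 / 4) ^ 2 := by
      rw [← sq_abs t]
      exact pow_le_pow_left₀ (abs_nonneg t) ht 2
    nlinarith

theorem cos_bound {t : ℝ} (ht : |t| ≤ 3 / 4) : cos (2 * π * t) ≤ 1 - t ^ 2 / 2 := by
  have h1 := sin_bound ht
  have h2 : cos (2 * π * t) = 1 - 2 * sin (π * t) ^ 2 := by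
    rw [mul_assoc, cos_two_mul, ← sin_sq_add_cos_sq (π * t)]
    ring
  rw [h2]
  linarith

variable {Ω : Type*} [Fintype Ω] [Nonempty Ω]

omit [Nonempty Ω] in
theorem Ex_mul_Ex (F G : Ω → ℝ) : Ex F * Ex G = Ex (fun a => Ex (fun b => F a * G b)) := by
  have : ∀ a, Ex (fun b => F a * G b) = F a * Ex G := fun a => Ex_mul_left _ _
  simp only [this]
  rw [Ex_mul_right]

/-- The characteristic function bound. -/
theorem norm_psi_le {l Z : Ω → ℝ} (hl : ∀ a, l a = 0 ∨ l a = 1)
    (hZ : ∀ a b, l a = 1 → l b = 1 → |Z a - Z b| ≤ 3 / 4) (hr : 0 < Ex l) :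
    ‖Ex (fun a => (l a : ℂ) * Complex.exp ((2 * π * Z a : ℝ) * Complex.I))‖ ≤
      Ex l * Real.exp (-(Ex (fun a => l a * (Z a + -(Ex (fun a => l a * Z a) / Ex l)) ^ 2)) / 2) := by
  set r := Ex l with hr'
  set s := Ex (fun a => l a * Z a) with hs
  set q := Ex (fun a => l a * Z a ^ 2) with hq
  set n := Ex (fun a => l a * (Z a + -(s / r)) ^ 2) with hn
  have hr1 : r ≤ 1 := by
    have := Ex_mono (F := l) (G := fun _ => 1) (fun a => by
      rcases hl a with h | h <;> rw [h]
      exact zero_le_one)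
    rwa [Ex_const] at this
  have hl0 : ∀ a, 0 ≤ l a := fun a => by rcases hl a with h | h <;> rw [h]; exact zero_le_one
  have hn1 : n = q - s ^ 2 / r := by
    have h1 : (fun a => l a * (Z a + -(s / r)) ^ 2) = fun a =>
        (l a * Z a ^ 2 + (-(2 * (s / r))) * (l a * Z a)) + (s / r) ^ 2 * l a := by
      funext a
      ring
    rw [hn, h1, Ex_add, Ex_add, Ex_mul_left, Ex_mul_left, ← hs, ← hq, ← hr']
    field_simp
    ring
  have hn0 : 0 ≤ n := Ex_nonneg fun a => mul_nonneg (hl0 a) (sq_nonneg _)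
  set ψ := Ex (fun a => (l a : ℂ) * Complex.exp ((2 * π * Z a : ℝ) * Complex.I)) with hψ
  have hre : ψ.re = Ex (fun a => l a * cos (2 * π * Z a)) := by
    rw [hψ, Ex_re]
    congr 1
    funext a
    rw [Complex.re_ofReal_mul, Complex.exp_ofReal_mul_I_re]
  have him : ψ.im = Ex (fun a => l a * sin (2 * π * Z a)) := by
    rw [hψ, Ex_im]
    congr 1
    funext a
    rw [Complex.im_ofReal_mul, Complex.exp_ofReal_mul_I_im]
  have h1 : ‖ψ‖ ^ 2 ≤ r ^ 2 - r * n := by
    rw [← Complex.normSq_eq_norm_sq, Complex.normSq_apply, hre, him, Ex_mul_Ex, Ex_mul_Ex,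
      ← Ex_add]
    simp only [← Ex_add]
    have h2 : r ^ 2 - r * n = Ex (fun a => Ex (fun b =>
        l a * l b * (1 - (Z a - Z b) ^ 2 / 2))) := by
      have h3 : ∀ a b, l a * l b * (1 - (Z a - Z b) ^ 2 / 2) =
          ((l a * l b + (-(1 / 2)) * ((l a * Z a ^ 2) * l b)) + (l a * Z a) * (l b * Z b)) +
            (-(1 / 2)) * (l a * (l b * Z b ^ 2)) := by
        intro a b
        ring
      simp only [h3, Ex_add, Ex_mul_left]
      simp only [Ex_mul_right, ← hr', ← hs, ← hq]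
      rw [hn1]
      field_simp
      ring
    rw [h2]
    apply Ex_mono
    intro a
    apply Ex_mono
    intro b
    rcases hl a with ha | ha
    · rw [ha]
      simp
    rcases hl b with hb | hb
    · rw [hb]
      simp
    have h3 := cos_bound (hZ a b ha hb)
    rw [ha, hb]
    rw [mul_sub, cos_sub] at h3
    linarith
  have h2 : r ^ 2 - r * n ≤ (r * Real.exp (-n / 2)) ^ 2 := by
    have h3 : (r * Real.exp (-n / 2)) ^ 2 = r ^ 2 * Real.exp (-n) := by
      rw [mul_pow, ← Real.exp_nat_mul]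
      congr 2
      push_cast
      ring
    have h4 := Real.add_one_le_exp (-n)
    rw [h3]
    have h5 : r ^ 2 - r * n ≤ r ^ 2 * (-n + 1) := by nlinarith [mul_nonneg hr.le hn0]
    exact h5.trans (mul_le_mul_of_nonneg_left h4 (sq_nonneg r))
  exact le_of_sq_le_sq (h1.trans h2) (by positivity)

end Q155.OrAnd
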