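import Pool.Agent.Q155.OrAnd.Char

set_option autoImplicit false

/-! Indicator functions close to a sum of independent variables. -/

namespace Q155.OrAnd

open Real

/-- A lower bound for the probability that no block is large. -/
noncomputable def c₀ : ℝ := Real.exp (-120)

/-- The constant for the variances. -/
noncomputable def A₀ : ℝ := 100 / c₀

/-- The final constant. -/
noncomputable def K₀ : ℝ := 48 * (1 + A₀ + (2 + 2 * A₀) / c₀)

theorem c₀_pos : 0 < c₀ := Real.exp_pos _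

theorem A₀_pos : 0 < A₀ := div_pos (by norm_num) c₀_pos

theorem K₀_pos : 0 < K₀ := by
  have := c₀_pos
  have := A₀_pos
  unfold K₀
  positivity

section block

variable {Ω : Type*} [Fintype Ω] [Nonempty Ω] {Z : Ω → ℝ}

/-- The indicator of `Z < 1/4`. -/
noncomputable def ll (Z : Ω → ℝ) (a : Ω) : ℝ := if Z a < 1 / 4 then 1 else 0

omit [Fintype Ω] [Nonempty Ω] in
theorem ll_cases (Z : Ω → ℝ) (a : Ω) : ll Z a = 0 ∨ ll Z a = 1 := by
  unfold ll
  split_ifs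
  · exact Or.inr rfl
  · exact Or.inl rfl

omit [Fintype Ω] [Nonempty Ω] in
theorem lt_of_ll {a : Ω} (h : ll Z a = 1) : Z a < 1 / 4 := by
  unfold ll at h
  by_contra hcon
  rw [if_neg hcon] at h
  exact zero_ne_one h

omit [Fintype Ω] [Nonempty Ω] in
theorem le_of_ll {a : Ω} (h : ll Z a = 0) : 1 / 4 ≤ Z a := by
  unfold ll at h
  by_contra hcon
  rw [if_pos (not_le.1 hcon)] at h
  exact one_ne_zero h

omit [Fintype Ω] [Nonempty Ω] in
theorem ll_nonneg (a : Ω) : 0 ≤ ll Z a := by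
  rcases ll_cases Z a with h | h <;> rw [h]
  exact zero_le_one

omit [Fintype Ω] [Nonempty Ω] in
theorem ll_le_one (a : Ω) : ll Z a ≤ 1 := by
  rcases ll_cases Z a with h | h <;> rw [h]
  exact zero_le_one

theorem Ex_ll_le_one : Ex (ll Z) ≤ 1 := by
  have := Ex_mono (F := ll Z) (G := fun _ => 1) ll_le_one
  rwa [Ex_const] at this

theorem Ex_ll_ge (h0 : Ex Z = 0) (hlo : ∀ a, -(1 / 2) ≤ Z a) : 1 / 3 ≤ Ex (ll Z) := by
  have h1 : Ex (fun a => 1 / 4 + (-(3 / 4)) * ll Z a) ≤ Ex Z := by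
    apply Ex_mono
    intro a
    rcases ll_cases Z a with h | h
    · rw [h]
      linarith [le_of_ll h]
    · rw [h]
      linarith [hlo a]
  rw [Ex_add, Ex_mul_left, Ex_const, h0] at h1
  linarith

theorem one_sub_Ex_ll_le : 1 - Ex (ll Z) ≤ 16 * Ex (fun a => Z a ^ 2) := by
  have h1 : Ex (fun a => 1 - ll Z a) ≤ Ex (fun a => 16 * Z a ^ 2) := by
    apply Ex_mono
    intro a
    rcases ll_cases Z a with h | h
    · rw [h]
      nlinarith [le_of_ll h]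
    · rw [h, sub_self]
      positivity
  rwa [Ex_sub, Ex_mul_left, Ex_const] at h1

theorem Ex_ll_ge_exp (h0 : Ex Z = 0) (hlo : ∀ a, -(1 / 2) ≤ Z a) :
    Real.exp (-(48 * Ex (fun a => Z a ^ 2))) ≤ Ex (ll Z) := by
  set r := Ex (ll Z) with hr
  have h1 := Ex_ll_ge h0 hlo
  have h2 := one_sub_Ex_ll_le (Z := Z)
  have h3 := Ex_ll_le_one (Z := Z)
  rw [← hr] at h1 h2 h3
  have h4 : Real.exp (-(48 * Ex (fun a => Z a ^ 2))) ≤ Real.exp (-(3 * (1 - r))) := by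
    apply Real.exp_le_exp.2
    linarith
  refine h4.trans ?_
  rw [Real.exp_neg]
  have h5 := Real.add_one_le_exp (3 * (1 - r))
  have h6 : 0 < 3 * (1 - r) + 1 := by linarith
  rw [inv_le_comm₀ (Real.exp_pos _) (by linarith)]
  refine le_trans ?_ h5
  rw [inv_le_iff_one_le_mul₀ (by linarith)]
  nlinarith

/-- The shift making the truncated variable centred. -/
noncomputable def mm (Z : Ω → ℝ) : ℝ := -(Ex (fun a => ll Z a * Z a) / Ex (ll Z))

theorem mm_nonneg (h0 : Ex Z = 0) (hlo : ∀ a, -(1 / 2) ≤ Z a) : 0 ≤ mm Z := by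
  have h1 := Ex_ll_ge h0 hlo
  have h2 : Ex (fun a => ll Z a * Z a) ≤ Ex Z := by
    apply Ex_mono
    intro a
    rcases ll_cases Z a with h | h
    · rw [h]
      linarith [le_of_ll h]
    · rw [h]
      linarith
  unfold mm
  rw [h0] at h2
  rw [neg_nonneg]
  apply div_nonpos_of_nonpos_of_nonneg h2
  linarith

theorem Ex_N (h0 : Ex Z = 0) (hlo : ∀ a, -(1 / 2) ≤ Z a) :
    Ex (fun a => ll Z a * (Z a + mm Z)) = 0 := by
  have h1 := Ex_ll_ge h0 hlo
  have h2 : (fun a => ll Z a * (Z a + mm Z)) = fun a => ll Z a * Z a + ll Z a * mm Z := by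
    funext a
    ring
  rw [h2, Ex_add, Ex_mul_right]
  unfold mm
  have h3 : Ex (ll Z) ≠ 0 := by linarith
  have h4 : Ex (fun a => ll Z a) = Ex (ll Z) := rfl
  rw [h4]
  field_simp
  ring

/-- The variance of the truncated variable. -/
noncomputable def nn (Z : Ω → ℝ) : ℝ := Ex (fun a => ll Z a * (Z a + mm Z) ^ 2)

omit [Nonempty Ω] in
theorem nn_nonneg : 0 ≤ nn Z :=
  Ex_nonneg fun a => mul_nonneg (ll_nonneg a) (sq_nonneg _)

omit [Nonempty Ω] in
theorem Ex_N_sq : Ex (fun a => (ll Z a * (Z a + mm Z)) ^ 2) = nn Z := by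
  unfold nn
  congr 1
  funext a
  rcases ll_cases Z a with h | h <;> rw [h] <;> ring

theorem nn_le (h0 : Ex Z = 0) (hlo : ∀ a, -(1 / 2) ≤ Z a) : nn Z ≤ Ex (fun a => Z a ^ 2) := by
  have h1 := Ex_ll_ge h0 hlo
  have h2 : nn Z = Ex (fun a => ll Z a * Z a ^ 2) -
      (Ex (fun a => ll Z a * Z a)) ^ 2 / Ex (ll Z) := by
    have h3 : (fun a => ll Z a * (Z a + mm Z) ^ 2) = fun a =>
        (ll Z a * Z a ^ 2 + (2 * mm Z) * (ll Z a * Z a)) + (mm Z) ^ 2 * ll Z a := by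
      funext a
      ring
    unfold nn
    rw [h3, Ex_add, Ex_add, Ex_mul_left, Ex_mul_left]
    have h4 : Ex (ll Z) ≠ 0 := by linarith
    have h5 : Ex (fun a => ll Z a) = Ex (ll Z) := rfl
    rw [h5]
    unfold mm
    field_simp
    ring
  have h3 : Ex (fun a => ll Z a * Z a ^ 2) ≤ Ex (fun a => Z a ^ 2) := by
    apply Ex_mono
    intro a
    have := ll_le_one (Z := Z) a
    nlinarith [sq_nonneg (Z a)]
  have h4 : 0 ≤ (Ex (fun a => ll Z a * Z a)) ^ 2 / Ex (ll Z) := by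
    apply div_nonneg (sq_nonneg _)
    linarith
  linarith

theorem psi_le (h0 : Ex Z = 0) (hlo : ∀ a, -(1 / 2) ≤ Z a) :
    ‖Ex (fun a => (ll Z a : ℂ) * Complex.exp ((2 * π * Z a : ℝ) * Complex.I))‖ ≤
      Ex (ll Z) * Real.exp (-(nn Z) / 2) := by
  have h1 := Ex_ll_ge h0 hlo
  exact norm_psi_le (ll_cases Z) (by
    intro a b ha hb
    have h2 := lt_of_ll ha
    have h3 := lt_of_ll hb
    have h4 := hlo a
    have h5 := hlo b
    rw [abs_le]
    constructor <;> linarith) (by linarith)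

end block

section core

variable {J : Type*} [Fintype J] [DecidableEq J] {Ω : J → Type*} [∀ j, Fintype (Ω j)]
  [∀ j, Nonempty (Ω j)]

omit [DecidableEq J] [∀ j, Fintype (Ω j)] [∀ j, Nonempty (Ω j)] in
theorem prod_ll (Z : ∀ j, Ω j → ℝ) (ω : ∀ j, Ω j) :
    (∏ j, ll (Z j) (ω j) = 1 ∧ ∀ j, Z j (ω j) < 1 / 4) ∨
      (∏ j, ll (Z j) (ω j) = 0 ∧ ∃ j, 1 / 4 ≤ Z j (ω j)) := by
  by_cases h : ∀ j, Z j (ω j) < 1 / 4
  · left
    refine ⟨?_, h⟩
    apply Finset.prod_eq_one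
    intro j _
    unfold ll
    rw [if_pos (h j)]
  · right
    push Not at h
    refine ⟨?_, h⟩
    obtain ⟨j, hj⟩ := h
    apply Finset.prod_eq_zero (Finset.mem_univ j)
    unfold ll
    rw [if_neg (not_lt.2 hj)]

/-- The variance bound. -/
theorem var_bound {g : (∀ j, Ω j) → ℝ} (hg : ∀ ω, g ω = 0 ∨ g ω = 1) {p : ℝ} (hp0 : 0 ≤ p)
    (hp : p ≤ 1) {Z : ∀ j, Ω j → ℝ} (hZ0 : ∀ j, Ex (Z j) = 0) {η : ℝ} (hη : η ≤ 1 / 4)
    (h : Ex (fun ω => (g ω - (p + ∑ j, Z j (ω j))) ^ 2) ≤ η) :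
    ∑ j, Ex (fun a => Z j a ^ 2) ≤ 5 / 2 := by
  rw [← Ex_sum_sq Z hZ0]
  have h1 : Ex (fun ω : ∀ j, Ω j => (∑ j, Z j (ω j)) ^ 2) ≤
      Ex (fun ω => 2 * (g ω - (p + ∑ j, Z j (ω j))) ^ 2 + 2) := by
    apply Ex_mono
    intro ω
    rcases hg ω with h2 | h2 <;> rw [h2]
    · nlinarith [sq_nonneg (∑ j, Z j (ω j) + 2 * p)]
    · nlinarith [sq_nonneg (∑ j, Z j (ω j) - 2 * (1 - p))]
  rw [Ex_add, Ex_mul_left, Ex_const] at h1
  linarith

/-- The sum of the variances of the truncated variables is small. -/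
theorem nn_bound {g : (∀ j, Ω j) → ℝ} (hg : ∀ ω, g ω = 0 ∨ g ω = 1) {p : ℝ} (hp0 : 0 ≤ p)
    (hp : p ≤ 1) {Z : ∀ j, Ω j → ℝ} (hZ0 : ∀ j, Ex (Z j) = 0)
    (hlo : ∀ j a, -(1 / 2) ≤ Z j a) {η : ℝ} (hη : η ≤ 1 / 4)
    (h : Ex (fun ω => (g ω - (p + ∑ j, Z j (ω j))) ^ 2) ≤ η) :
    c₀ ≤ Ex (fun ω : ∀ j, Ω j => ∏ j, ll (Z j) (ω j)) ∧ ∑ j, nn (Z j) ≤ A₀ * η := by
  have hv := var_bound hg hp0 hp hZ0 hη h
  set P := Ex (fun ω : ∀ j, Ω j => ∏ j, ll (Z j) (ω j)) with hP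
  have hP1 : P = ∏ j, Ex (ll (Z j)) := Ex_prod (fun j => ll (Z j))
  have hPc : c₀ ≤ P := by
    rw [hP1]
    calc c₀ = Real.exp (-120) := rfl
      _ ≤ Real.exp (∑ j, -(48 * Ex (fun a => Z j a ^ 2))) := by
          apply Real.exp_le_exp.2
          rw [Finset.sum_neg_distrib, ← Finset.mul_sum]
          linarith
      _ = ∏ j, Real.exp (-(48 * Ex (fun a => Z j a ^ 2))) := Real.exp_sum _ _
      _ ≤ ∏ j, Ex (ll (Z j)) := Finset.prod_le_prod (fun j _ => (Real.exp_pos _).le)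
          fun j _ => Ex_ll_ge_exp (hZ0 j) (hlo j)
  refine ⟨hPc, ?_⟩
  have hP0 : 0 < P := lt_of_lt_of_le c₀_pos hPc
  set N := ∑ j, nn (Z j) with hN
  have hN0 : 0 ≤ N := Finset.sum_nonneg fun j _ => nn_nonneg
  have hN1 : N ≤ 5 / 2 := (Finset.sum_le_sum fun j _ => nn_le (hZ0 j) (hlo j)).trans hv
  have hη0 : 0 ≤ η := (Ex_nonneg fun _ => sq_nonneg _).trans h
  -- the characteristic function
  have h1 : ‖Ex (fun ω : ∀ j, Ω j => ((∏ j, ll (Z j) (ω j) : ℝ) : ℂ) *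
      Complex.exp ((2 * π * (p + ∑ j, Z j (ω j)) : ℝ) * Complex.I))‖ ≤ P * Real.exp (-N / 2) := by
    have h2 : (fun ω : ∀ j, Ω j => ((∏ j, ll (Z j) (ω j) : ℝ) : ℂ) *
        Complex.exp ((2 * π * (p + ∑ j, Z j (ω j)) : ℝ) * Complex.I)) =
        fun ω => Complex.exp ((2 * π * p : ℝ) * Complex.I) *
          ∏ j, ((ll (Z j) (ω j) : ℂ) * Complex.exp ((2 * π * Z j (ω j) : ℝ) * Complex.I)) := by
      funext ω
      rw [Finset.prod_mul_distrib, ← Complex.exp_sum, ← Finset.sum_mul]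
      have h3 : (((2 * π * (p + ∑ j, Z j (ω j)) : ℝ) : ℂ)) * Complex.I =
          ((2 * π * p : ℝ) : ℂ) * Complex.I +
            (∑ j, ((2 * π * Z j (ω j) : ℝ) : ℂ)) * Complex.I := by
        push_cast
        rw [← Finset.mul_sum]
        ring
      rw [h3, Complex.exp_add]
      push_cast
      ring
    rw [h2, Ex_mul_left, Ex_prod (fun j a => (ll (Z j) a : ℂ) *
      Complex.exp ((2 * π * Z j a : ℝ) * Complex.I)), norm_mul, Complex.norm_exp_ofReal_mul_I,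
      one_mul, norm_prod]
    calc ∏ j, ‖Ex (fun a => (ll (Z j) a : ℂ) *
          Complex.exp ((2 * π * Z j a : ℝ) * Complex.I))‖
        ≤ ∏ j, (Ex (ll (Z j)) * Real.exp (-(nn (Z j)) / 2)) :=
          Finset.prod_le_prod (fun j _ => norm_nonneg _) fun j _ => psi_le (hZ0 j) (hlo j)
      _ = P * Real.exp (-N / 2) := by
          rw [Finset.prod_mul_distrib, ← Real.exp_sum, hP1, hN]
          congr 2
          rw [← Finset.sum_div, Finset.sum_neg_distrib]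
  have h2 := Complex.re_le_norm (Ex (fun ω : ∀ j, Ω j => ((∏ j, ll (Z j) (ω j) : ℝ) : ℂ) *
      Complex.exp ((2 * π * (p + ∑ j, Z j (ω j)) : ℝ) * Complex.I)))
  rw [Ex_re] at h2
  have h3 : P - Ex (fun ω : ∀ j, Ω j => (((∏ j, ll (Z j) (ω j) : ℝ) : ℂ) *
      Complex.exp ((2 * π * (p + ∑ j, Z j (ω j)) : ℝ) * Complex.I)).re) ≤ 2 * π ^ 2 * η := by
    rw [hP, ← Ex_sub]
    refine le_trans ?_ (mul_le_mul_of_nonneg_left h (by positivity))
    rw [← Ex_mul_left]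
    apply Ex_mono
    intro ω
    rw [Complex.re_ofReal_mul, Complex.exp_ofReal_mul_I_re]
    set S := p + ∑ j, Z j (ω j) with hS
    have h4 : Real.cos (2 * π * S) = Real.cos (2 * π * (S - g ω)) := by
      rcases hg ω with h5 | h5 <;> rw [h5]
      · rw [sub_zero]
      · rw [mul_sub, mul_one, Real.cos_sub_two_pi]
    have h5 := Real.one_sub_sq_div_two_le_cos (x := 2 * π * (S - g ω))
    rw [← h4] at h5
    have h6 : 0 ≤ 1 - Real.cos (2 * π * S) := by linarith [Real.cos_le_one (2 * π * S)]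
    have h7 : (2 * π * (S - g ω)) ^ 2 / 2 = 2 * π ^ 2 * (g ω - S) ^ 2 := by ring
    rw [h7] at h5
    rcases prod_ll Z ω with ⟨h8, _⟩ | ⟨h8, _⟩ <;> rw [h8]
    · linarith
    · rw [zero_mul, sub_zero]
      positivity
  -- conclusion
  have h4 : P * (1 - Real.exp (-N / 2)) ≤ 2 * π ^ 2 * η := by linarith
  have h5 : N / 5 ≤ 1 - Real.exp (-N / 2) := by
    have h6 : Real.exp (-N / 2) ≤ 1 / (1 + N / 2) := by
      rw [neg_div, Real.exp_neg, one_div]
      apply inv_anti₀ (by linarith)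
      linarith [Real.add_one_le_exp (N / 2)]
    have h7 : 1 / (1 + N / 2) ≤ 1 - N / 5 := by
      rw [div_le_iff₀ (by linarith)]
      nlinarith
    linarith
  have h6 : c₀ * (N / 5) ≤ 2 * π ^ 2 * η :=
    (mul_le_mul hPc h5 (by linarith) hP0.le).trans h4
  have h7 : π ^ 2 ≤ 10 := by
    have := Real.pi_lt_d2
    nlinarith [Real.pi_pos]
  unfold A₀
  rw [div_mul_eq_mul_div, le_div_iff₀ c₀_pos]
  nlinarith

/-- An indicator function close to a sum of independent variables is close to an indicator of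
a union of block events. -/
theorem core [Nonempty J] {g : (∀ j, Ω j) → ℝ} (hg : ∀ ω, g ω = 0 ∨ g ω = 1) {p : ℝ}
    (hp0 : 0 ≤ p) (hp : p ≤ 1) {Z : ∀ j, Ω j → ℝ} (hZ0 : ∀ j, Ex (Z j) = 0)
    (hlo : ∀ j a, -(1 / 2) ≤ Z j a) {η : ℝ} (hη : η ≤ 1 / 4)
    (h : Ex (fun ω => (g ω - (p + ∑ j, Z j (ω j))) ^ 2) ≤ η) :
    ∃ H : ∀ j, Set (Ω j), ∃ G : (∀ j, Ω j) → ℝ, Ex G ≤ K₀ * η ∧ (∀ ω, 0 ≤ G ω) ∧
      ∀ ω, ¬ (g ω = 1 ↔ ∃ j, ω j ∈ H j) → 1 ≤ G ω := by
  obtain ⟨hPc, hNb⟩ := nn_bound hg hp0 hp hZ0 hlo hη h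
  set P := Ex (fun ω : ∀ j, Ω j => ∏ j, ll (Z j) (ω j)) with hP
  have hP0 : 0 < P := lt_of_lt_of_le c₀_pos hPc
  have hη0 : 0 ≤ η := (Ex_nonneg fun _ => sq_nonneg _).trans h
  set N := ∑ j, nn (Z j) with hN
  have hN0 : 0 ≤ N := Finset.sum_nonneg fun j _ => nn_nonneg
  set c := p - ∑ j, mm (Z j) with hc
  set NS : (∀ j, Ω j) → ℝ := fun ω => ∑ j, ll (Z j) (ω j) * (Z j (ω j) + mm (Z j)) with hNS
  set DS : (∀ j, Ω j) → ℝ := fun ω => ∑ j, (1 - ll (Z j) (ω j)) * (Z j (ω j) + mm (Z j)) with hDS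
  have hdec : ∀ ω, p + ∑ j, Z j (ω j) = c + NS ω + DS ω := by
    intro ω
    rw [hc, hNS, hDS]
    beta_reduce
    have : ∑ j, Z j (ω j) + ∑ j, mm (Z j) = ∑ j, ll (Z j) (ω j) * (Z j (ω j) + mm (Z j)) +
        ∑ j, (1 - ll (Z j) (ω j)) * (Z j (ω j) + mm (Z j)) := by
      rw [← Finset.sum_add_distrib, ← Finset.sum_add_distrib]
      apply Finset.sum_congr rfl
      intro j _
      ring
    linarith
  have hNSq : Ex (fun ω => NS ω ^ 2) = N := by
    rw [hNS, Ex_sum_sq (fun j a => ll (Z j) a * (Z j a + mm (Z j)))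
      (fun j => Ex_N (hZ0 j) (hlo j))]
    apply Finset.sum_congr rfl
    intro j _
    exact Ex_N_sq
  have hDterm : ∀ (ω : ∀ j, Ω j) j, 0 ≤ (1 - ll (Z j) (ω j)) * (Z j (ω j) + mm (Z j)) := by
    intro ω j
    have h1 := mm_nonneg (hZ0 j) (hlo j)
    rcases ll_cases (Z j) (ω j) with h2 | h2
    · rw [h2]
      linarith [le_of_ll h2]
    · rw [h2, sub_self, zero_mul]
  have hD0 : ∀ ω : ∀ j, Ω j, 0 ≤ DS ω := fun ω => Finset.sum_nonneg fun j _ => hDterm ω j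
  have hDL : ∀ ω : ∀ j, Ω j, (∀ j, Z j (ω j) < 1 / 4) → DS ω = 0 := by
    intro ω h1
    rw [hDS]
    apply Finset.sum_eq_zero
    intro j _
    unfold ll
    rw [if_pos (h1 j), sub_self, zero_mul]
  have hDH : ∀ ω : ∀ j, Ω j, (∃ j, 1 / 4 ≤ Z j (ω j)) → 1 / 4 ≤ DS ω := by
    rintro ω ⟨j, hj⟩
    have h1 : (1 - ll (Z j) (ω j)) * (Z j (ω j) + mm (Z j)) ≤ DS ω :=
      Finset.single_le_sum (f := fun j => (1 - ll (Z j) (ω j)) * (Z j (ω j) + mm (Z j)))
        (fun j _ => hDterm ω j) (Finset.mem_univ j)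
    have h2 := mm_nonneg (hZ0 j) (hlo j)
    have h3 : ll (Z j) (ω j) = 0 := by
      unfold ll
      rw [if_neg (not_lt.2 hj)]
    rw [h3] at h1
    linarith
  -- the constant is close to an integer
  have hmin : ∃ b : ℝ, (b = 0 ∨ b = 1) ∧ (c - b) ^ 2 ≤ (2 + 2 * A₀) / c₀ * η := by
    obtain ⟨b, hb1, hb2⟩ : ∃ b : ℝ, (b = 0 ∨ b = 1) ∧
        ∀ x : ℝ, (x = 0 ∨ x = 1) → (c - b) ^ 2 ≤ (x - c) ^ 2 := by
      rcases le_total (c ^ 2) ((1 - c) ^ 2) with h1 | h1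
      · refine ⟨0, Or.inl rfl, ?_⟩
        rintro x (rfl | rfl)
        · exact le_of_eq (by ring)
        · exact le_trans (le_of_eq (by ring)) h1
      · refine ⟨1, Or.inr rfl, ?_⟩
        rintro x (rfl | rfl)
        · refine le_trans (le_of_eq (by ring)) (h1.trans (le_of_eq (by ring)))
        · exact le_of_eq (by ring)
    refine ⟨b, hb1, ?_⟩
    have h1 : P * (c - b) ^ 2 ≤ 2 * η + 2 * N := by
      have h2 : P * (c - b) ^ 2 = Ex (fun ω : ∀ j, Ω j => (∏ j, ll (Z j) (ω j)) * (c - b) ^ 2) := by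
        rw [Ex_mul_right]
      rw [h2]
      have h3 : Ex (fun ω : ∀ j, Ω j => (∏ j, ll (Z j) (ω j)) * (c - b) ^ 2) ≤
          Ex (fun ω => 2 * (g ω - (p + ∑ j, Z j (ω j))) ^ 2 + 2 * NS ω ^ 2) := by
        apply Ex_mono
        intro ω
        rcases prod_ll Z ω with ⟨h8, h9⟩ | ⟨h8, _⟩ <;> rw [h8]
        · rw [one_mul]
          refine (hb2 (g ω) (hg ω)).trans ?_
          rw [hdec, hDL ω h9]
          nlinarith [sq_nonneg (g ω - c - 2 * NS ω)]
        · rw [zero_mul]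
          positivity
      rw [Ex_add, Ex_mul_left, Ex_mul_left, hNSq] at h3
      linarith
    rw [div_mul_eq_mul_div, le_div_iff₀ c₀_pos]
    have h2 : c₀ * (c - b) ^ 2 ≤ P * (c - b) ^ 2 := mul_le_mul_of_nonneg_right hPc (sq_nonneg _)
    linarith
  obtain ⟨b, hb, hcb⟩ := hmin
  -- the distance of `g` to `b + DS`
  have hG : Ex (fun ω => 16 * (g ω - b - DS ω) ^ 2) ≤ K₀ * η := by
    have h1 : Ex (fun ω => 16 * (g ω - b - DS ω) ^ 2) ≤
        Ex (fun ω => (48 * (g ω - (p + ∑ j, Z j (ω j))) ^ 2 + 48 * NS ω ^ 2) +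
          48 * (c - b) ^ 2) := by
      apply Ex_mono
      intro ω
      rw [hdec]
      have h2 : g ω - b - DS ω = (g ω - (c + NS ω + DS ω)) + NS ω + (c - b) := by ring
      rw [h2]
      set x := g ω - (c + NS ω + DS ω)
      set y := NS ω
      set z := c - b
      nlinarith [sq_nonneg (x - y), sq_nonneg (y - z), sq_nonneg (x - z)]
    rw [Ex_add, Ex_add, Ex_mul_left _ (fun ω => NS ω ^ 2), hNSq, Ex_const,
      Ex_mul_left _ (fun ω : ∀ j, Ω j => (g ω - (p + ∑ j, Z j (ω j))) ^ 2)] at h1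
    refine h1.trans ?_
    unfold K₀
    have h2 : 48 * (1 + A₀ + (2 + 2 * A₀) / c₀) * η =
      48 * η + 48 * (A₀ * η) + 48 * ((2 + 2 * A₀) / c₀ * η) := by ring
    rw [h2]
    linarith
  rcases hb with rfl | rfl
  · refine ⟨fun j => {a | 1 / 4 ≤ Z j a}, _, hG, fun ω => by positivity, ?_⟩
    intro ω hω
    by_cases h1 : ∃ j, 1 / 4 ≤ Z j (ω j)
    · have h2 : g ω = 0 := by
        rcases hg ω with h2 | h2
        · exact h2
        · exact absurd ⟨fun _ => h1, fun _ => h2⟩ hω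
      have h3 := hDH ω h1
      rw [h2]
      nlinarith
    · have h2 : g ω = 1 := by
        rcases hg ω with h2 | h2
        · exact absurd ⟨fun h3 => absurd (h2.symm.trans h3) zero_ne_one, fun h3 => absurd h3 h1⟩ hω
        · exact h2
      push Not at h1
      rw [h2, hDL ω h1]
      norm_num
  · refine ⟨fun j => Set.univ, _, hG, fun ω => by positivity, ?_⟩
    intro ω hω
    have h1 : g ω = 0 := by
      rcases hg ω with h2 | h2
      · exact h2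
      · exact absurd ⟨fun _ => ⟨Classical.arbitrary J, Set.mem_univ _⟩, fun _ => h2⟩ hω
    have h2 := hD0 ω
    rw [h1]
    nlinarith

end core

end Q155.OrAnd
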