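import Mathlib

set_option autoImplicit false

/-! Expectations over finite uniform product spaces. -/

namespace Q155.OrAnd

/-- The average of `F`. -/
noncomputable def Ex {K Ω : Type*} [Field K] [Fintype Ω] (F : Ω → K) : K :=
  (∑ ω, F ω) / (Fintype.card Ω : K)

section basic

variable {K Ω : Type*} [Field K] [Fintype Ω]

theorem Ex_add (F G : Ω → K) : Ex (fun ω => F ω + G ω) = Ex F + Ex G := by
  unfold Ex
  rw [Finset.sum_add_distrib, add_div]

theorem Ex_sub (F G : Ω → K) : Ex (fun ω => F ω - G ω) = Ex F - Ex G := by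
  unfold Ex
  rw [Finset.sum_sub_distrib, sub_div]

theorem Ex_mul_left (c : K) (F : Ω → K) : Ex (fun ω => c * F ω) = c * Ex F := by
  unfold Ex
  rw [← Finset.mul_sum, mul_div_assoc]

theorem Ex_mul_right (c : K) (F : Ω → K) : Ex (fun ω => F ω * c) = Ex F * c := by
  unfold Ex
  rw [← Finset.sum_mul, div_mul_eq_mul_div]

theorem Ex_zero : Ex (fun _ : Ω => (0 : K)) = 0 := by
  unfold Ex
  rw [Finset.sum_const_zero, zero_div]

theorem Ex_sum {ι : Type*} (s : Finset ι) (F : ι → Ω → K) :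
    Ex (fun ω => ∑ i ∈ s, F i ω) = ∑ i ∈ s, Ex (F i) := by
  unfold Ex
  rw [Finset.sum_comm, Finset.sum_div]

theorem Ex_const [CharZero K] [Nonempty Ω] (c : K) : Ex (fun _ : Ω => c) = c := by
  unfold Ex
  rw [Finset.sum_const, Finset.card_univ, nsmul_eq_mul]
  have : (Fintype.card Ω : K) ≠ 0 := Nat.cast_ne_zero.2 Fintype.card_ne_zero
  field_simp

theorem Ex_comm {Ω' : Type*} [Fintype Ω'] (F : Ω → Ω' → K) :
    Ex (fun ω => Ex (fun ω' => F ω ω')) = Ex (fun ω' => Ex (fun ω => F ω ω')) := by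
  unfold Ex
  rw [← Finset.sum_div, ← Finset.sum_div, Finset.sum_comm, div_div, div_div, mul_comm]

theorem Ex_equiv {Ω' : Type*} [Fintype Ω'] (e : Ω ≃ Ω') (F : Ω' → K) :
    Ex (fun ω => F (e ω)) = Ex F := by
  unfold Ex
  rw [Equiv.sum_comp, Fintype.card_congr e]

end basic

section real

variable {Ω : Type*} [Fintype Ω]

theorem Ex_mono {F G : Ω → ℝ} (h : ∀ ω, F ω ≤ G ω) : Ex F ≤ Ex G := by
  unfold Ex
  exact div_le_div_of_nonneg_right (Finset.sum_le_sum fun ω _ => h ω) (Nat.cast_nonneg _)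

theorem Ex_nonneg {F : Ω → ℝ} (h : ∀ ω, 0 ≤ F ω) : 0 ≤ Ex F := by
  have := Ex_mono h
  rwa [Ex_zero] at this

theorem Ex_re (F : Ω → ℂ) : (Ex F).re = Ex (fun ω => (F ω).re) := by
  unfold Ex
  rw [Complex.div_natCast_re, Complex.re_sum]

theorem Ex_im (F : Ω → ℂ) : (Ex F).im = Ex (fun ω => (F ω).im) := by
  unfold Ex
  rw [Complex.div_natCast_im, Complex.im_sum]

end real

section product

variable {K J : Type*} [Field K] [CharZero K] [Fintype J] [DecidableEq J] {Ω : J → Type*}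
  [∀ j, Fintype (Ω j)]

omit [CharZero K] in
theorem Ex_prod (F : ∀ j, Ω j → K) :
    Ex (fun ω : ∀ j, Ω j => ∏ j, F j (ω j)) = ∏ j, Ex (F j) := by
  unfold Ex
  rw [Finset.prod_div_distrib, Finset.prod_univ_sum, Fintype.piFinset_univ, Fintype.card_pi]
  push_cast
  rfl

/-- The resampling bijection. -/
def resample (j : J) : Ω j × (∀ j, Ω j) ≃ (∀ j, Ω j) × Ω j where
  toFun p := (Function.update p.2 j p.1, p.2 j)
  invFun q := (q.1 j, Function.update q.1 j q.2)
  left_inv p := by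
    ext i
    · simp
    · simp
  right_inv q := by
    ext i
    · simp
    · simp

variable [∀ j, Nonempty (Ω j)]

theorem Ex_resample (j : J) (F : (∀ j, Ω j) → K) :
    Ex F = Ex (fun a : Ω j => Ex (fun ω : ∀ j, Ω j => F (Function.update ω j a))) := by
  have h1 : ∑ p : Ω j × (∀ j, Ω j), F (Function.update p.2 j p.1) =
      ∑ q : (∀ j, Ω j) × Ω j, F q.1 :=
    Fintype.sum_equiv (resample j) _ _ fun p => rfl
  rw [Fintype.sum_prod_type, Fintype.sum_prod_type] at h1
  simp only [Finset.sum_const, Finset.card_univ, nsmul_eq_mul] at h1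
  unfold Ex
  rw [← Finset.sum_div, h1, ← Finset.mul_sum]
  have h2 : (Fintype.card (Ω j) : K) ≠ 0 := Nat.cast_ne_zero.2 Fintype.card_ne_zero
  have h3 : (Fintype.card (∀ j, Ω j) : K) ≠ 0 := Nat.cast_ne_zero.2 Fintype.card_ne_zero
  field_simp

theorem Ex_one (j : J) (φ : Ω j → K) : Ex (fun ω : ∀ j, Ω j => φ (ω j)) = Ex φ := by
  rw [Ex_resample j]
  simp only [Function.update_self]
  congr 1
  funext a
  exact Ex_const _

theorem Ex_two {i j : J} (hij : i ≠ j) (φ : Ω i → K) (χ : Ω j → K) :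
    Ex (fun ω : ∀ j, Ω j => φ (ω i) * χ (ω j)) = Ex φ * Ex χ := by
  rw [Ex_resample j]
  simp only [Function.update_self, Function.update_of_ne hij]
  have : ∀ a : Ω j, Ex (fun ω : ∀ j, Ω j => φ (ω i) * χ a) = Ex φ * χ a := by
    intro a
    rw [Ex_mul_right, Ex_one]
  simp only [this]
  rw [Ex_mul_left]

/-- The variance of a sum of independent centred functions. -/
theorem Ex_sum_sq (N : ∀ j, Ω j → K) (hN : ∀ j, Ex (N j) = 0) :
    Ex (fun ω : ∀ j, Ω j => (∑ j, N j (ω j)) ^ 2) = ∑ j, Ex (fun a => N j a ^ 2) := by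
  have h1 : (fun ω : ∀ j, Ω j => (∑ j, N j (ω j)) ^ 2) =
      fun ω => ∑ i, ∑ j, N i (ω i) * N j (ω j) := by
    funext ω
    rw [sq, Finset.sum_mul_sum]
  rw [h1, Ex_sum]
  apply Finset.sum_congr rfl
  intro i _
  rw [Ex_sum, Finset.sum_eq_single i]
  · rw [← Ex_one i]
    congr 1
    funext ω
    rw [sq]
  · intro j _ hji
    rw [Ex_two hji.symm, hN i, zero_mul]
  · intro h
    exact absurd (Finset.mem_univ i) h

end product

end Q155.OrAnd
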