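import Pool.Agent.Q155.OrAnd.Core

set_option autoImplicit false

/-! The projection to sums of block functions. -/

namespace Q155.OrAnd

open Real

variable {J : Type*} [Fintype J] [DecidableEq J] {Ω : J → Type*} [∀ j, Fintype (Ω j)]
  [∀ j, Nonempty (Ω j)]

/-- The conditional expectations, centred. -/
noncomputable def zz (g : (∀ j, Ω j) → ℝ) (j : J) (a : Ω j) : ℝ :=
  Ex (fun ω : ∀ j, Ω j => g (Function.update ω j a)) - Ex g

theorem Ex_zz (g : (∀ j, Ω j) → ℝ) (j : J) : Ex (zz g j) = 0 := by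
  unfold zz
  rw [Ex_sub, Ex_const, ← Ex_resample, sub_self]

omit [∀ j, Nonempty (Ω j)] in
theorem zz_ge {g : (∀ j, Ω j) → ℝ} (hg : ∀ ω, 0 ≤ g ω) (hp : Ex g ≤ 1 / 2) (j : J) (a : Ω j) :
    -(1 / 2) ≤ zz g j a := by
  unfold zz
  have : 0 ≤ Ex (fun ω : ∀ j, Ω j => g (Function.update ω j a)) := Ex_nonneg fun ω => hg _
  linarith

/-- The projection is orthogonal to block functions. -/
theorem orth (g : (∀ j, Ω j) → ℝ) (j : J) (φ : Ω j → ℝ) :
    Ex (fun ω : ∀ j, Ω j => (g ω - (Ex g + ∑ i, zz g i (ω i))) * φ (ω j)) = 0 := by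
  have h1 : (fun ω : ∀ j, Ω j => (g ω - (Ex g + ∑ i, zz g i (ω i))) * φ (ω j)) =
      fun ω => g ω * φ (ω j) - (Ex g * φ (ω j) + ∑ i, zz g i (ω i) * φ (ω j)) := by
    funext ω
    rw [← Finset.sum_mul]
    ring
  have h2 : Ex (fun ω : ∀ j, Ω j => g ω * φ (ω j)) =
      Ex (fun a => Ex (fun ω : ∀ j, Ω j => g (Function.update ω j a)) * φ a) := by
    rw [Ex_resample j]
    congr 1
    funext a
    rw [← Ex_mul_right]
    simp only [Function.update_self]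
  have h3 : Ex (fun ω : ∀ j, Ω j => zz g j (ω j) * φ (ω j)) = Ex (fun a => zz g j a * φ a) :=
    Ex_one j (fun a => zz g j a * φ a)
  have h4 : ∑ i, Ex (fun ω : ∀ j, Ω j => zz g i (ω i) * φ (ω j)) =
      Ex (fun a => zz g j a * φ a) := by
    rw [Finset.sum_eq_single j]
    · exact h3
    · intro i _ hij
      rw [Ex_two hij, Ex_zz, zero_mul]
    · intro h
      exact absurd (Finset.mem_univ j) h
  rw [h1, Ex_sub, Ex_add, Ex_sum, h4, h2, Ex_mul_left, Ex_one]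
  have h5 : (fun a => zz g j a * φ a) = fun a =>
      Ex (fun ω : ∀ j, Ω j => g (Function.update ω j a)) * φ a - Ex g * φ a := by
    funext a
    unfold zz
    ring
  rw [h5, Ex_sub, Ex_mul_left]
  ring

/-- The form of the core theorem used later. -/
theorem core' [Nonempty J] {g : (∀ j, Ω j) → ℝ} (hg : ∀ ω, g ω = 0 ∨ g ω = 1)
    (hp : Ex g ≤ 1 / 2) {T : (∀ j, Ω j) → ℝ}
    (hT : ∀ F : (∀ j, Ω j) → ℝ, (∀ j (φ : Ω j → ℝ), Ex (fun ω => F ω * φ (ω j)) = 0) →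
      Ex (fun ω => F ω * T ω) = 0) {η : ℝ} (hη : η ≤ 1 / 4)
    (h : Ex (fun ω => (g ω - T ω) ^ 2) ≤ η) :
    ∃ H : ∀ j, Set (Ω j), ∃ G : (∀ j, Ω j) → ℝ, Ex G ≤ K₀ * η ∧ (∀ ω, 0 ≤ G ω) ∧
      ∀ ω, ¬ (g ω = 1 ↔ ∃ j, ω j ∈ H j) → 1 ≤ G ω := by
  have hg0 : ∀ ω, 0 ≤ g ω := fun ω => by
    rcases hg ω with h | h <;> rw [h]
    exact zero_le_one
  apply core hg (Ex_nonneg hg0) (hp.trans (by norm_num)) (Ex_zz g) (zz_ge hg0 hp) hη
  refine le_trans ?_ h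
  set F : (∀ j, Ω j) → ℝ := fun ω => g ω - (Ex g + ∑ i, zz g i (ω i)) with hF
  have horth : ∀ j (φ : Ω j → ℝ), Ex (fun ω => F ω * φ (ω j)) = 0 := orth g
  have h1 := hT F horth
  have h2 : Ex (fun ω => F ω * (Ex g + ∑ i, zz g i (ω i))) = 0 := by
    have h3 : (fun ω : ∀ j, Ω j => F ω * (Ex g + ∑ i, zz g i (ω i))) =
        fun ω => F ω * Ex g + ∑ i, F ω * zz g i (ω i) := by
      funext ω
      rw [mul_add, Finset.mul_sum]
    rw [h3, Ex_add, Ex_sum, horth (Classical.arbitrary J) (fun _ => Ex g), zero_add]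
    apply Finset.sum_eq_zero
    intro i _
    exact horth i (zz g i)
  have h3 : Ex (fun ω => (g ω - T ω) ^ 2) = Ex (fun ω => F ω ^ 2) +
      Ex (fun ω => (Ex g + ∑ i, zz g i (ω i) - T ω) ^ 2) := by
    have h4 : (fun ω : ∀ j, Ω j => (g ω - T ω) ^ 2) = fun ω =>
        (F ω ^ 2 + (Ex g + ∑ i, zz g i (ω i) - T ω) ^ 2) +
          2 * (F ω * (Ex g + ∑ i, zz g i (ω i)) - F ω * T ω) := by
      funext ω
      rw [hF]
      ring
    rw [h4, Ex_add, Ex_add, Ex_mul_left, Ex_sub, h1, h2]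
    ring
  rw [h3]
  have h4 : 0 ≤ Ex (fun ω => (Ex g + ∑ i, zz g i (ω i) - T ω) ^ 2) :=
    Ex_nonneg fun _ => sq_nonneg _
  linarith

end Q155.OrAnd
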